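import Pool.Agent.PGm.M46
import Pool.Agent.PGm.M44

/-!
# MP_dfe0a1_co: the growth constant of unlabelled planar graphs

`u n` is the number of isomorphism classes of planar simple graphs on `n` vertices.  The theorem
determines `γ = lim (u n) ^ (1 / n)`: an explicit system of functional equations (`System`) has
exactly one solution `(a, d, s)` in sequences of nonnegative numbers with constant terms `0, 1, 1`,
and `γ = 1 / ρ`, where `ρ` is the only positive number at which `(∑ a n * x ^ n, ∑ d n * x ^ n)`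
lies on an explicit rational curve.  Numerically `27.454 < γ < 27.455`.

Meaning of the unknown functions: `K` rooted connected planar graphs, `D` networks (connected
planar graphs with an ordered pair of non cut vertices as poles, which may be joined to each other
by an additional edge; the poles are not counted), `S` networks isomorphic to their reverse, `X`
networks that are neither an edge nor a parallel connection, `Z` those isomorphic to their reverse,
`P` rooted connected planar graphs whose root is not a cut vertex.  `U, V, Y` are the parameters of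
the generating function of 3-connected planar maps, `A, W, W', α, β` the parameters of the
3-connected planar maps with a reflection.
-/

namespace Pool.Agent.Results.MP_dfe0a1_co.GrowthConstant

open Equiv Real


/-- the permutation of the darts reversing every dart -/
def rev {V : Type} (G : SimpleGraph V) : Perm G.Dart :=
  ⟨SimpleGraph.Dart.symm, SimpleGraph.Dart.symm, fun d => d.symm_symm, fun d => d.symm_symm⟩

/-- number of cycles of a permutation, fixed points included -/
noncomputable def numCycles {T : Type} (s : Perm T) : ℕ :=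
  Nat.card (Quotient (Perm.SameCycle.setoid s))

/-- `G` is planar: there is a rotation system `s` (its cycles are the sets of darts with a given
first vertex, the edges around that vertex in cyclic order) such that
`#vertices + #faces = #edges + 2 * #components`.  The cycles of `s` are the vertices of positive
degree, the faces are the cycles of `rev G * s`, and the components are those with at least one
edge; so this is Euler's formula for an embedding in the sphere of every component (isolated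
vertices do not matter). -/
def IsPlanar {V : Type} (G : SimpleGraph V) : Prop :=
  ∃ s : Perm G.Dart, (∀ d d', s.SameCycle d d' ↔ d.fst = d'.fst) ∧
    numCycles s + numCycles (rev G * s) = Nat.card G.edgeSet +
      2 * Nat.card {c : G.ConnectedComponent // ∃ d : G.Dart, G.connectedComponentMk d.fst = c}

/-- the number of unlabelled planar graphs on `n` vertices: isomorphism classes of planar simple
graphs on `Fin n` -/
noncomputable def u (n : ℕ) : ℕ :=
  Nat.card (Quot fun G H : {G : SimpleGraph (Fin n) // IsPlanar G} => Nonempty (G.1 ≃g H.1))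

/-- connected planar graphs on `Fin n` with a root vertex -/
def Rooted (n : ℕ) : Type := {p : SimpleGraph (Fin n) × Fin n // p.1.Connected ∧ IsPlanar p.1}

/-- number of unlabelled connected planar graphs on `n` vertices with a root vertex -/
noncomputable def r (n : ℕ) : ℕ :=
  Nat.card (Quot fun p q : Rooted n => ∃ f : p.1.1 ≃g q.1.1, f p.1.2 = q.1.2)

/-- deleting `v` leaves a connected graph -/
def NonCut {V : Type} (G : SimpleGraph V) (v : V) : Prop := (G.induce {v}ᶜ).Preconnected

/-- connected planar graphs on `Fin n` with a root arc whose ends are not cut vertices -/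
def ArcRooted (n : ℕ) : Type := {p : SimpleGraph (Fin n) × Fin n × Fin n //
  p.1.Connected ∧ IsPlanar p.1 ∧ p.1.Adj p.2.1 p.2.2 ∧ NonCut p.1 p.2.1 ∧ NonCut p.1 p.2.2}

/-- number of unlabelled connected planar graphs on `n` vertices with a root arc whose ends are
not cut vertices -/
noncomputable def b (n : ℕ) : ℕ :=
  Nat.card (Quot fun p q : ArcRooted n =>
    ∃ f : p.1.1 ≃g q.1.1, f p.1.2.1 = q.1.2.1 ∧ f p.1.2.2 = q.1.2.2)

/-! ### The system -/

/-- the sum of a power series -/
noncomputable def ser (a : ℕ → ℝ) (x : ℝ) : ℝ := ∑' n, a n * x ^ n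

/-- first coordinate of the point with parameter `w` of a rational cubic curve -/
noncomputable def curveZ (p q w : ℝ) : ℝ :=
  w * (1 - q * (1 - p * q) * w) / (1 - q * (1 - p) * w)

/-- second coordinate of this point -/
noncomputable def curveX (p q w : ℝ) : ℝ :=
  (1 - q * w) / ((1 - q * (1 - p) * w) * (1 - q * (1 - p * q) * w))

/-- the logarithmic term -/
noncomputable def logTerm (k u v : ℝ) : ℝ :=
  k * log ((1 - u * v) * (1 - v) / (1 - v - u * v)) - log (1 - u * v)

/-- Rational relations between the values `k, d, c, u, v, y, A, w, w', α, β, X, Z, B` of functions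
at a point `x` and the values `s, E, p, q, h` at `x ^ 2` of the functions with the values
`k, d, u, v, y` at `x`. -/
structure Local (k d c u v y A w w' α β s E p q h X Z B : ℝ) : Prop where
  u0 : 0 < u
  v0 : 0 < v
  reg : u + v + 3 * u * v < 1
  hk : k = u * (1 - v) ^ 2 / (v * (1 - u) ^ 2)
  hd : d = v * (1 - u - v) / (1 - v) ^ 2
  hy : y = v * (1 - u) ^ 2
  A0 : 0 < A
  w0 : 0 < w
  ww : w < w'
  wa : q * (1 - p) * w' < 1
  wb : 2 * (q * (1 - p * q)) * w' < 1 + q * (1 - p) * (q * (1 - p * q)) * w' ^ 2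
  sum : curveZ p q w + curveZ p q w' = 1 + A + k + k * d
  prod : curveZ p q w * curveZ p q w' = A * (1 + k * d)
  line : α + β * curveZ p q w = curveX p q w
  line' : α + β * curveZ p q w' = curveX p q w'
  hc : c + 1 = α + β * (A + k)
  hX : 2 * X = d / (1 + d) - y + k * d ^ 2 / (1 + k * d) + (1 + d) * (h - E / (1 + E)) +
    s * h * (α + β * (1 + k + k * d) - 1 - E) / k
  hZ : 2 * Z = k * h / (1 - q) + q * (1 - p) + c * (p + q - p * q) - (1 + c) * (E / (1 + E)) +
    c / (1 + c) - A * h
  hB : 4 * B = 4 * k * (d - X - d * X) + k ^ 2 * d ^ 3 / (1 + k * d) -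
    u * v * (2 - 3 * u + 4 * u ^ 2 - u ^ 3) / (1 - u) ^ 2 - k * p * q * (1 - p) / (1 - q) -
    p * q + c * p * (1 - q) + k * (1 + d) ^ 2 * (h - E / (1 + E)) +
    s * h * (α * (1 + d) + β * (A + (1 + d) * (1 + k + k * d)) - (1 + d) * (1 + E))

/-- The system at `x`. -/
structure System (K D S U V Y A W W' α β X Z B P : ℝ → ℝ) (x : ℝ) : Prop where
  loc : Local (K x) (D x) (S x) (U x) (V x) (Y x) (A x) (W x) (W' x) (α x) (β x) (K (x ^ 2))
    (D (x ^ 2)) (U (x ^ 2)) (V (x ^ 2)) (Y (x ^ 2)) (X x) (Z x) (B x)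
  hP : HasSum (fun j : ℕ => ((j + 1).totient : ℝ) / (2 * (j + 1)) *
    logTerm (K x) (U (x ^ (j + 1))) (V (x ^ (j + 1)))) (P x - B x)
  hD : HasSum (fun j : ℕ => X (x ^ (j + 1)) / (j + 1)) (log ((1 + D x) / 2))
  hS : HasSum (fun j : ℕ => (if Even j then Z (x ^ (j + 1)) else X (x ^ (j + 1))) / (j + 1))
    (log ((1 + S x) / 2))
  hK : HasSum (fun j : ℕ => P (x ^ (j + 1)) / (j + 1)) (log (K x / x))

/-- On the interval `0 < x < ε` the three power series converge and their sums satisfy the system,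
with some auxiliary functions. -/
def SolvesOn (a d s : ℕ → ℝ) (ε : ℝ) : Prop :=
  ∃ U V Y A W W' α β X Z B P : ℝ → ℝ, ∀ x : ℝ, 0 < x → x < ε →
    (Summable fun n => a n * x ^ n) ∧ (Summable fun n => d n * x ^ n) ∧
      (Summable fun n => s n * x ^ n) ∧
      System (ser a) (ser d) (ser s) U V Y A W W' α β X Z B P x

/-- a solution near `0` with nonnegative coefficients and constant terms `0, 1, 1` -/
def Solution (a d s : ℕ → ℝ) : Prop :=
  a 0 = 0 ∧ d 0 = 1 ∧ s 0 = 1 ∧ (∀ n, 0 ≤ a n ∧ 0 ≤ d n ∧ 0 ≤ s n) ∧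
    ∃ ε : ℝ, 0 < ε ∧ SolvesOn a d s ε

theorem system_iff (K D S U V Y A W W' α β X Z B P : ℝ → ℝ) (x : ℝ) :
    PGr.FSys K D S U V Y A W W' α β X Z B P x ↔ System K D S U V Y A W W' α β X Z B P x :=
  ⟨fun h => ⟨⟨h.loc.u0, h.loc.v0, h.loc.reg, h.loc.hk, h.loc.hd, h.loc.hy, h.loc.A0, h.loc.w0,
      h.loc.ww, h.loc.wa, h.loc.wb, h.loc.sum, h.loc.prod, h.loc.line, h.loc.line', h.loc.hc,
      h.loc.hX, h.loc.hZ, h.loc.hB⟩, h.hP, h.hD, h.hS, h.hK⟩,
    fun h => ⟨⟨h.loc.u0, h.loc.v0, h.loc.reg, h.loc.hk, h.loc.hd, h.loc.hy, h.loc.A0, h.loc.w0,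
      h.loc.ww, h.loc.wa, h.loc.wb, h.loc.sum, h.loc.prod, h.loc.line, h.loc.line', h.loc.hc,
      h.loc.hX, h.loc.hZ, h.loc.hB⟩, h.hP, h.hD, h.hS, h.hK⟩⟩

theorem solvesOn_iff (a d s : ℕ → ℝ) (ε : ℝ) : SolvesOn a d s ε ↔ PGr.FOn a d s ε := by
  constructor
  · rintro ⟨U, V, Y, A, W, W', α, β, X, Z, B, P, h⟩
    exact ⟨U, V, Y, A, W, W', α, β, X, Z, B, P, fun x h0 h1 =>
      ⟨⟨(h x h0 h1).1, (h x h0 h1).2.1, (h x h0 h1).2.2.1⟩,
        (system_iff _ _ _ U V Y A W W' α β X Z B P x).2 (h x h0 h1).2.2.2⟩⟩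
  · rintro ⟨U, V, Y, A, W, W', α, β, X, Z, B, P, h⟩
    exact ⟨U, V, Y, A, W, W', α, β, X, Z, B, P, fun x h0 h1 =>
      ⟨(h x h0 h1).1.a, (h x h0 h1).1.b, (h x h0 h1).1.c,
        (system_iff _ _ _ U V Y A W W' α β X Z B P x).1 (h x h0 h1).2⟩⟩

theorem solution_iff (a d s : ℕ → ℝ) :
    Solution a d s ↔ PGr.Adm a d s ∧ ∃ ε : ℝ, 0 < ε ∧ PGr.FOn a d s ε := by
  constructor
  · rintro ⟨h1, h2, h3, h4, ε, hε, h5⟩
    exact ⟨⟨h1, h2, h3, fun n => (h4 n).1, fun n => (h4 n).2.1, fun n => (h4 n).2.2⟩, ε, hε,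
      (solvesOn_iff a d s ε).1 h5⟩
  · rintro ⟨h1, ε, hε, h6⟩
    exact ⟨h1.a0, h1.b0, h1.c0, fun n => ⟨h1.an n, h1.bn n, h1.cn n⟩, ε, hε,
      (solvesOn_iff a d s ε).2 h6⟩

/-- The system has exactly one solution `(a, d, s)`; `a n` is the number of connected planar graphs
on `n` vertices with a root vertex, `d n = 2 * b (n + 2)` (minus `1` for `n = 0`); there is exactly
one positive number `ρ` at which the first two series converge to a point of the curve
`((1+3t)(1-t)³/(16t³), 3t²/((1-t)(1+3t)))`, `0 < t < 1`; the system holds on the whole interval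
`0 < x < ρ`; and the growth constant of the unlabelled planar graphs is `1 / ρ`, which lies between
`27.454` and `27.455`. -/
theorem result : ∃ (a d s : ℕ → ℝ) (ρ : ℝ),
    (∀ a' d' s' : ℕ → ℝ, Solution a' d' s' ↔ a' = a ∧ d' = d ∧ s' = s) ∧
    (∀ n, a n = r n) ∧ (∀ n, d n = 2 * (b (n + 2) : ℝ) - if n = 0 then 1 else 0) ∧ 0 < ρ ∧
    (∀ x : ℝ, 0 < x → (((Summable fun n => a n * x ^ n) ∧ (Summable fun n => d n * x ^ n) ∧
      ∃ t : ℝ, 0 < t ∧ t < 1 ∧ ser a x = (1 + 3 * t) * (1 - t) ^ 3 / (16 * t ^ 3) ∧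
        ser d x = 3 * t ^ 2 / ((1 - t) * (1 + 3 * t))) ↔ x = ρ)) ∧
    SolvesOn a d s ρ ∧
    Filter.Tendsto (fun n : ℕ => (u n : ℝ) ^ (1 / n : ℝ)) Filter.atTop (nhds (1 / ρ)) ∧
    27454 / 1000 < 1 / ρ ∧ 1 / ρ < 27455 / 1000 := by
  obtain ⟨a, d, s, ρ, h1, h2, h3, h4, h5, h6, h7⟩ := PGr.exact_growth'
  obtain ⟨γ, g1, g2, g3⟩ := PGn.digits
  have e : γ = 1 / ρ := tendsto_nhds_unique g1 h7
  exact ⟨a, d, s, ρ, fun a' d' s' => (solution_iff a' d' s').trans (h1 a' d' s'), h2, h3, h4, h5,
    (solvesOn_iff a d s ρ).2 h6, h7, e ▸ g2, e ▸ g3⟩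

end Pool.Agent.Results.MP_dfe0a1_co.GrowthConstant
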